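import Mathlib

/-!
# Project SL: representations whose traces on a coset differ by a multiple of a character
-/

set_option autoImplicit false

open Matrix Polynomial

namespace Pool.Agent.J6H90.SL

variable {k H : Type} [Field k] [Group H] {m : ℕ}

/-- the linear extension -/
noncomputable def lf (W : H →* Matrix (Fin m) (Fin m) k) :
    MonoidAlgebra k H →ₐ[k] Matrix (Fin m) (Fin m) k := MonoidAlgebra.lift k _ H W

noncomputable def lc (c : H →* k) : MonoidAlgebra k H →ₐ[k] k := MonoidAlgebra.lift k _ H c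

theorem lf_of (W : H →* Matrix (Fin m) (Fin m) k) (h : H) :
    lf W (MonoidAlgebra.of k H h) = W h := by
  unfold lf
  rw [MonoidAlgebra.lift_of]

theorem lc_of (c : H →* k) (h : H) : lc c (MonoidAlgebra.of k H h) = c h := by
  unfold lc
  rw [MonoidAlgebra.lift_of]

theorem lf_surj {W : H →* Matrix (Fin m) (Fin m) k} (hW : Submodule.span k (Set.range W) = ⊤)
    (X : Matrix (Fin m) (Fin m) k) : ∃ y, lf W y = X := by
  have h1 : X ∈ Submodule.span k (Set.range W) := by
    rw [hW]
    exact Submodule.mem_top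
  induction h1 using Submodule.span_induction with
  | mem z hz =>
    obtain ⟨h, rfl⟩ := hz
    exact ⟨_, lf_of W h⟩
  | zero => exact ⟨0, map_zero _⟩
  | add a b _ _ ha hb =>
    obtain ⟨y, hy⟩ := ha
    obtain ⟨z, hz⟩ := hb
    exact ⟨y + z, by rw [map_add, hy, hz]⟩
  | smul a b _ hb =>
    obtain ⟨y, hy⟩ := hb
    exact ⟨a • y, by rw [map_smul, hy]⟩

theorem lf_span {W : H →* Matrix (Fin m) (Fin m) k} (y : MonoidAlgebra k H) :
    lf W y ∈ Submodule.span k (Set.range W) := by
  induction y using MonoidAlgebra.induction_on with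
  | of h =>
    rw [lf_of]
    exact Submodule.subset_span ⟨h, rfl⟩
  | add a b ha hb =>
    rw [map_add]
    exact Submodule.add_mem _ ha hb
  | smul r a ha =>
    rw [map_smul]
    exact Submodule.smul_mem _ _ ha

/-- the identity of the traces for the group algebra -/
theorem tr_lf {V W : H →* Matrix (Fin m) (Fin m) k} {c : H →* k}
    {P Q : Matrix (Fin m) (Fin m) k} {κ : k}
    (htr : ∀ h, (P * V h).trace - (Q * W h).trace = κ * c h) (y : MonoidAlgebra k H) :
    (P * lf V y).trace - (Q * lf W y).trace = κ * lc c y := by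
  induction y using MonoidAlgebra.induction_on with
  | of h =>
    rw [lf_of, lf_of, lc_of]
    exact htr h
  | add a b ha hb =>
    rw [map_add, map_add, map_add, mul_add, mul_add, Matrix.trace_add, Matrix.trace_add]
    linear_combination ha + hb
  | smul r a ha =>
    rw [map_smul, map_smul, map_smul, Matrix.mul_smul, Matrix.mul_smul, Matrix.trace_smul,
      Matrix.trace_smul, smul_eq_mul, smul_eq_mul, smul_eq_mul]
    linear_combination r * ha

theorem eq_zero {X : Matrix (Fin m) (Fin m) k} (h : ∀ Z : Matrix (Fin m) (Fin m) k,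
    (X * Z).trace = 0) : X = 0 := by
  ext i j
  have h3 := h (Matrix.single j i 1)
  rw [Matrix.trace_mul_single] at h3
  simpa using h3

/-- an element which `W` maps to `1` and the character to `0` -/
theorem exists_y0 {W : H →* Matrix (Fin m) (Fin m) k} (hW : Submodule.span k (Set.range W) = ⊤)
    (c : H →* k) {h : H} (hh : W h ≠ c h • (1 : Matrix (Fin m) (Fin m) k)) :
    ∃ y, lf W y = 1 ∧ lc c y = 0 := by
  classical
  set y1 : MonoidAlgebra k H := MonoidAlgebra.of k H h - c h • 1 with hy1
  have hX : lf W y1 ≠ 0 := by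
    rw [hy1, map_sub, lf_of, map_smul, map_one, sub_ne_zero]
    exact hh
  have hc : lc c y1 = 0 := by
    rw [hy1, map_sub, lc_of, map_smul, map_one, smul_eq_mul, mul_one, sub_self]
  obtain ⟨i, j, hij⟩ : ∃ i j, lf W y1 i j ≠ 0 := by
    by_contra hcon
    push Not at hcon
    exact hX (by
      ext i j
      exact hcon i j)
  choose e he using lf_surj hW
  refine ⟨(lf W y1 i j)⁻¹ • ∑ a, e (Matrix.single a i 1) * y1 * e (Matrix.single j a 1), ?_, ?_⟩
  · rw [map_smul, map_sum]
    have h1 : ∀ a : Fin m, lf W (e (Matrix.single a i 1) * y1 * e (Matrix.single j a 1)) =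
        Matrix.single a a (lf W y1 i j) := by
      intro a
      rw [map_mul, map_mul, he, he, Matrix.single_mul_mul_single, one_mul, mul_one]
    rw [Finset.sum_congr rfl fun a _ => h1 a]
    ext a b
    rw [Matrix.smul_apply, Matrix.sum_apply, smul_eq_mul]
    by_cases hab : a = b
    · subst hab
      rw [Finset.sum_eq_single a]
      · rw [Matrix.single_apply_same, inv_mul_cancel₀ hij, Matrix.one_apply_eq]
      · intro b _ hb
        rw [Matrix.single_apply_of_ne]
        exact fun h => hb h.1
      · exact fun h => absurd (Finset.mem_univ a) h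
    · rw [Matrix.one_apply_ne hab, Finset.sum_eq_zero, mul_zero]
      intro x _
      rw [Matrix.single_apply_of_ne]
      rintro ⟨h1, h2⟩
      exact hab (h1.symm.trans h2)
  · rw [map_smul, map_sum, Finset.sum_eq_zero, smul_zero]
    intro a _
    rw [map_mul, map_mul, hc, mul_zero, zero_mul]

/-- an algebra automorphism of the matrices which is a conjugation -/
theorem exists_T (Φ : Matrix (Fin m) (Fin m) k ≃ₐ[k] Matrix (Fin m) (Fin m) k) :
    ∃ T T' : Matrix (Fin m) (Fin m) k, T' * T = 1 ∧ T * T' = 1 ∧ ∀ X, Φ X * T = T * X := by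
  classical
  let f : Module.End k (Fin m → k) ≃ₐ[k] Module.End k (Fin m → k) :=
    (Matrix.toLinAlgEquiv'.symm.trans Φ).trans Matrix.toLinAlgEquiv'
  obtain ⟨T, hT⟩ := f.eq_linearEquivConjAlgEquiv
  refine ⟨LinearMap.toMatrix' T.toLinearMap, LinearMap.toMatrix' T.symm.toLinearMap, ?_, ?_,
    fun X => ?_⟩
  · rw [← LinearMap.toMatrix'_comp, LinearEquiv.symm_comp, LinearMap.toMatrix'_id]
  · rw [← LinearMap.toMatrix'_comp, LinearEquiv.comp_symm, LinearMap.toMatrix'_id]
  · have h1 : f (Matrix.toLin' X) = T.toLinearMap ∘ₗ Matrix.toLin' X ∘ₗ T.symm.toLinearMap := by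
      rw [hT]
      rfl
    have h2 : f (Matrix.toLin' X) = Matrix.toLin' (Φ X) := by
      change Matrix.toLinAlgEquiv' (Φ (Matrix.toLinAlgEquiv'.symm (Matrix.toLin' X))) = _
      have h3 : (Matrix.toLinAlgEquiv'.symm (Matrix.toLin' X) : Matrix (Fin m) (Fin m) k) = X :=
        LinearMap.toMatrix'_toLin' X
      rw [h3]
      rfl
    have h4 : Matrix.toLin' (Φ X * LinearMap.toMatrix' T.toLinearMap) =
        Matrix.toLin' (LinearMap.toMatrix' T.toLinearMap * X) := by
      rw [Matrix.toLin'_mul, Matrix.toLin'_mul, Matrix.toLin'_toMatrix', ← h2, h1]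
      ext x
      simp
    exact Matrix.toLin'.injective h4

/-- the conclusion on `V` -/
theorem main {V W : H →* Matrix (Fin m) (Fin m) k} {c : H →* k}
    {P Q : Matrix (Fin m) (Fin m) k} {κ : k} (hP : IsUnit P) (hQ : IsUnit Q)
    (htr : ∀ h, (P * V h).trace - (Q * W h).trace = κ * c h)
    (hW : Submodule.span k (Set.range W) = ⊤) :
    ∃ T T' : Matrix (Fin m) (Fin m) k, T' * T = 1 ∧ T * T' = 1 ∧ ∀ h, V h * T = T * W h := by
  classical
  by_cases hsc : ∃ h, W h ≠ c h • (1 : Matrix (Fin m) (Fin m) k)
  · obtain ⟨h0, hh0⟩ := hsc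
    obtain ⟨y0, hy0, hy0c⟩ := exists_y0 hW c hh0
    obtain ⟨σ, hσ⟩ := (lf W).toLinearMap.exists_rightInverse_of_surjective
      (LinearMap.range_eq_top.2 fun X => lf_surj hW X)
    have hσ' : ∀ X, lf W (σ X) = X := fun X => LinearMap.congr_fun hσ X
    let Φ : Matrix (Fin m) (Fin m) k →ₗ[k] Matrix (Fin m) (Fin m) k :=
      (lf V).toLinearMap ∘ₗ (LinearMap.mulRight k y0) ∘ₗ σ
    have hΦ : ∀ X, Φ X = lf V (σ X * y0) := fun X => rfl
    have hinj : Function.Injective Φ := by
      rw [← LinearMap.ker_eq_bot, LinearMap.ker_eq_bot']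
      intro X hX
      rw [hΦ] at hX
      have h1 : Q * X = 0 := by
        refine eq_zero fun Z => ?_
        have h2 := tr_lf htr (σ X * y0 * σ Z)
        rw [map_mul (lf V), hX, zero_mul, Matrix.mul_zero, Matrix.trace_zero, map_mul (lf W),
          map_mul (lf W), hσ', hσ', hy0, mul_one, map_mul (lc c), map_mul (lc c), hy0c, mul_zero,
          zero_mul, mul_zero, zero_sub, neg_eq_zero, ← mul_assoc] at h2
        exact h2
      exact (hQ.mul_right_eq_zero).1 h1
    have hsurj : Function.Surjective Φ := LinearMap.injective_iff_surjective.1 hinj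
    have hVs : ∀ X, ∃ y, lf V y = X := fun X => by
      obtain ⟨Y, hY⟩ := hsurj X
      exact ⟨_, hY⟩
    have hkill : ∀ y, lc c y = 0 → lf W y = 0 → lf V y = 0 := by
      intro y hyc hyW
      have h3 : P * lf V y = 0 := by
        refine eq_zero fun Z => ?_
        obtain ⟨z, rfl⟩ := hVs Z
        have h4 := tr_lf htr (y * z)
        rw [map_mul (lf V), map_mul (lf W), map_mul (lc c), hyc, hyW, zero_mul, mul_zero,
          Matrix.trace_zero, zero_mul, mul_zero, sub_zero, ← mul_assoc] at h4
        exact h4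
      exact (hP.mul_right_eq_zero).1 h3
    have hI : ∀ y, lc c y = 0 → lf V y = Φ (lf W y) := by
      intro y hy
      have h1 := hkill (y - σ (lf W y) * y0)
        (by rw [map_sub, map_mul, hy, hy0c, mul_zero, sub_zero])
        (by rw [map_sub, map_mul, hσ', hy0, mul_one, sub_self])
      rw [map_sub, sub_eq_zero] at h1
      rw [h1, hΦ]
    have hmul : ∀ X Y, Φ (X * Y) = Φ X * Φ Y := by
      intro X Y
      have h1 : lf W (σ X * y0 * (σ Y * y0)) = X * Y := by
        rw [map_mul, map_mul, map_mul, hσ', hσ', hy0, mul_one, mul_one]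
      rw [← h1, ← hI _ (by rw [map_mul, map_mul, hy0c, mul_zero, zero_mul]), map_mul (lf V)]
      rfl
    have hone : Φ 1 = 1 := by
      obtain ⟨X, hX⟩ := hsurj 1
      have h1 := hmul X 1
      rw [mul_one, hX, one_mul] at h1
      exact h1.symm
    have hV : ∀ h, V h = Φ (W h) := by
      intro h
      have h1 := hI (MonoidAlgebra.of k H h * (σ 1 * y0))
        (by rw [map_mul, map_mul, hy0c, mul_zero, mul_zero])
      rw [map_mul (lf V), map_mul (lf W), lf_of, lf_of, ← hΦ, hone, mul_one, map_mul (lf W), hσ',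
        hy0, mul_one, mul_one] at h1
      exact h1
    obtain ⟨T, T', h1, h2, h3⟩ := exists_T (AlgEquiv.ofBijective
      (AlgHom.ofLinearMap Φ hone hmul) ⟨hinj, hsurj⟩)
    refine ⟨T, T', h1, h2, fun h => ?_⟩
    rw [hV]
    exact h3 (W h)
  · push Not at hsc
    have hm : m = 0 ∨ m = 1 := by
      by_contra hcon
      have h2 : 2 ≤ m := by omega
      have h3 : Matrix.single (⟨0, by omega⟩ : Fin m) (⟨1, by omega⟩ : Fin m) (1 : k) ∈
          Submodule.span k (Set.range W) := by
        rw [hW]
        exact Submodule.mem_top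
      have h4 : ∀ X ∈ Submodule.span k (Set.range W),
          X (⟨0, by omega⟩ : Fin m) (⟨1, by omega⟩ : Fin m) = 0 := by
        intro X hX
        induction hX using Submodule.span_induction with
        | mem z hz =>
          obtain ⟨h, rfl⟩ := hz
          rw [hsc, Matrix.smul_apply, Matrix.one_apply_ne, smul_zero]
          intro h0
          simpa using congrArg Fin.val h0
        | zero => rfl
        | add a b _ _ ha hb => rw [Matrix.add_apply, ha, hb, add_zero]
        | smul a b _ hb => rw [Matrix.smul_apply, hb, smul_zero]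
      have h5 := h4 _ h3
      rw [Matrix.single_apply_same] at h5
      exact one_ne_zero h5
    rcases hm with rfl | rfl
    · exact ⟨1, 1, Subsingleton.elim _ _, Subsingleton.elim _ _, fun h => Subsingleton.elim _ _⟩
    · refine ⟨1, 1, one_mul 1, one_mul 1, fun h => ?_⟩
      rw [mul_one, one_mul, hsc]
      have h1 := htr h
      have h2 := htr 1
      have e : ∀ X : Matrix (Fin 1) (Fin 1) k, X.trace = X 0 0 := fun X => by
        simp [Matrix.trace]
      have e2 : ∀ X Y : Matrix (Fin 1) (Fin 1) k, (X * Y) 0 0 = X 0 0 * Y 0 0 := fun X Y => by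
        simp [Matrix.mul_apply]
      have hP0 : P 0 0 ≠ 0 := by
        intro h0
        apply hP.ne_zero
        ext i j
        rw [Subsingleton.elim i 0, Subsingleton.elim j 0, h0]
        rfl
      rw [e, e, e2, e2, hsc] at h1 h2
      rw [map_one, map_one] at h2
      simp only [Matrix.smul_apply, Matrix.one_apply_eq, smul_eq_mul, mul_one] at h1 h2
      ext i j
      rw [Subsingleton.elim i 0, Subsingleton.elim j 0, Matrix.smul_apply, Matrix.one_apply_eq,
        smul_eq_mul, mul_one]
      have h3 : P 0 0 * (V h 0 0 - c h) = 0 := by linear_combination h1 - c h * h2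
      exact sub_eq_zero.1 ((mul_eq_zero.1 h3).resolve_left hP0)

end Pool.Agent.J6H90.SL
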