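import Mathlib

/-!
# Project SL: closed sets of positive Haar measure in profinite groups
-/

set_option autoImplicit false
set_option linter.unusedSectionVars false

open MeasureTheory Topology

namespace Pool.Agent.J6H90.SL

variable {G : Type*} [Group G] [TopologicalSpace G] [IsTopologicalGroup G] [CompactSpace G]
  [MeasurableSpace G] [BorelSpace G] (μ : Measure G) [μ.IsHaarMeasure]

theorem preim_mk (U : Subgroup G) (g : G) :
    (QuotientGroup.mk : G → G ⧸ U) ⁻¹' {(g : G ⧸ U)} = (fun x => g⁻¹ * x) ⁻¹' (U : Set G) := by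
  ext x
  rw [Set.mem_preimage, Set.mem_singleton_iff, eq_comm, QuotientGroup.eq]
  rfl

theorem real_translate (g : G) (A : Set G) : μ.real ((fun x => g * x) ⁻¹' A) = μ.real A := by
  unfold Measure.real
  rw [measure_preimage_mul]

theorem meas_coset (U : Subgroup G) (hU : IsOpen (U : Set G)) (q : G ⧸ U) :
    MeasurableSet ((QuotientGroup.mk : G → G ⧸ U) ⁻¹' {q}) := by
  obtain ⟨g, rfl⟩ := QuotientGroup.mk_surjective q
  rw [preim_mk]
  exact (hU.preimage (continuous_const.mul continuous_id)).measurableSet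

/-- the measure of a union of cosets -/
theorem real_preimage (U : Subgroup G) (hU : IsOpen (U : Set G)) (S : Finset (G ⧸ U)) :
    μ.real ((QuotientGroup.mk : G → G ⧸ U) ⁻¹' S) = S.card * μ.real (U : Set G) := by
  classical
  have h1 : (QuotientGroup.mk : G → G ⧸ U) ⁻¹' S =
      ⋃ q ∈ S, (QuotientGroup.mk : G → G ⧸ U) ⁻¹' {q} := by
    ext x
    simp
  rw [h1, measureReal_biUnion_finset]
  · rw [Finset.sum_congr rfl (g := fun _ => μ.real (U : Set G)), Finset.sum_const, nsmul_eq_mul]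
    intro q _
    obtain ⟨g, rfl⟩ := QuotientGroup.mk_surjective q
    rw [preim_mk, real_translate]
  · intro q _ r _ hqr
    exact Disjoint.preimage _ (Set.disjoint_singleton.2 hqr)
  · exact fun q _ => meas_coset U hU q

/-- an open normal subgroup `U` with `Z * U ⊆ O` -/
theorem exists_U (hbasis : ∀ V ∈ 𝓝 (1 : G), ∃ U : Subgroup G, U.Normal ∧ IsOpen (U : Set G) ∧
      (U : Set G) ⊆ V) {Z O : Set G} (hZ : IsClosed Z) (hO : IsOpen O) (hZO : Z ⊆ O)
    (H : Subgroup G) (hH : IsOpen (H : Set G)) :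
    ∃ U : Subgroup G, U.Normal ∧ IsOpen (U : Set G) ∧ U ≤ H ∧ ∀ z ∈ Z, ∀ u ∈ U, z * u ∈ O := by
  obtain ⟨V, hV, hZV⟩ := compact_open_separated_mul_right hZ.isCompact hO hZO
  obtain ⟨U, hUn, hUo, hUV⟩ := hbasis (V ∩ H) (Filter.inter_mem hV (hH.mem_nhds H.one_mem))
  exact ⟨U, hUn, hUo, fun x hx => (hUV hx).2, fun z hz u hu =>
    hZV (Set.mul_mem_mul hz (hUV hu).1)⟩

/-- in a closed set of positive measure one finds translates of `k` given elements -/
theorem translates [μ.OuterRegular] (hbasis : ∀ V ∈ 𝓝 (1 : G), ∃ U : Subgroup G, U.Normal ∧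
      IsOpen (U : Set G) ∧ (U : Set G) ⊆ V) {Z : Set G} (hZ : IsClosed Z) (hμ : μ Z ≠ 0)
    (H : Subgroup G) (hH : IsOpen (H : Set G)) (k : ℕ) :
    ∃ (g : G) (U : Subgroup G), U.Normal ∧ IsOpen (U : Set G) ∧ U ≤ H ∧
      ∀ k' ≤ k, ∀ h : Fin k' → G, (∀ j, h j ∈ U) → ∃ x ∈ U, ∀ j, g * h j * x ∈ Z := by
  classical
  have hZm : MeasurableSet Z := hZ.measurableSet
  have hZ0 : 0 < μ.real Z := by
    rw [measureReal_def]
    exact ENNReal.toReal_pos hμ (measure_ne_top μ Z)
  have hk : (0 : ℝ) < k + 1 := by positivity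
  obtain ⟨O, hZO, hO, hμO⟩ : ∃ O, Z ⊆ O ∧ IsOpen O ∧ μ.real O < μ.real Z + μ.real Z / (k + 1) := by
    have h1 : μ Z < ENNReal.ofReal (μ.real Z + μ.real Z / (k + 1)) := by
      rw [← ofReal_measureReal (μ := μ) (s := Z)]
      rw [ENNReal.ofReal_lt_ofReal_iff_of_nonneg measureReal_nonneg]
      have : 0 < μ.real Z / (k + 1) := div_pos hZ0 hk
      linarith
    obtain ⟨O, hZO, hO, hμO⟩ := Z.exists_isOpen_lt_of_lt _ h1
    refine ⟨O, hZO, hO, ?_⟩
    rw [measureReal_def]
    have h2 := (ENNReal.toReal_lt_toReal (measure_ne_top μ O) ENNReal.ofReal_ne_top).2 hμO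
    rwa [ENNReal.toReal_ofReal (by positivity)] at h2
  obtain ⟨U, hUn, hUo, hUH, hU⟩ := exists_U hbasis hZ hO hZO H hH
  have hfin : Finite (G ⧸ U) := Subgroup.quotient_finite_of_isOpen _ hUo
  have hft : Fintype (G ⧸ U) := Fintype.ofFinite _
  set S : Finset (G ⧸ U) := Finset.univ.filter fun q => ∃ z ∈ Z, (z : G ⧸ U) = q with hS
  obtain ⟨g, hg⟩ : ∃ g : G, μ.real ((fun x => g⁻¹ * x) ⁻¹' (U : Set G) \ Z) * (k + 1) <
      μ.real (U : Set G) := by
    by_contra hcon
    push Not at hcon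
    have h1 : μ.real Z ≤ S.card * μ.real (U : Set G) := by
      rw [← real_preimage μ U hUo S]
      refine measureReal_mono ?_
      intro z hz
      rw [Set.mem_preimage, Finset.mem_coe, hS, Finset.mem_filter]
      exact ⟨Finset.mem_univ _, z, hz, rfl⟩
    have h2 : ∑ q ∈ S, μ.real ((QuotientGroup.mk : G → G ⧸ U) ⁻¹' {q} \ Z) ≤ μ.real (O \ Z) := by
      rw [← measureReal_biUnion_finset]
      · refine measureReal_mono ?_
        intro x hx
        rw [Set.mem_iUnion₂] at hx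
        obtain ⟨q, hq, hxq, hxZ⟩ := hx
        refine ⟨?_, hxZ⟩
        obtain ⟨-, z, hz, hzq⟩ := Finset.mem_filter.1 hq
        have h3 : z⁻¹ * x ∈ U := by
          rw [← QuotientGroup.eq, hzq]
          exact (Set.mem_singleton_iff.1 hxq).symm
        have h4 := hU z hz _ h3
        rwa [mul_inv_cancel_left] at h4
      · intro q _ r _ hqr
        exact (Disjoint.preimage _ (Set.disjoint_singleton.2 hqr)).mono Set.sdiff_subset
          Set.sdiff_subset
      · exact fun q _ => (meas_coset U hUo q).diff hZm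
    have h3 : S.card * μ.real (U : Set G) ≤
        (∑ q ∈ S, μ.real ((QuotientGroup.mk : G → G ⧸ U) ⁻¹' {q} \ Z)) * (k + 1) := by
      rw [Finset.sum_mul, ← nsmul_eq_mul, ← Finset.sum_const]
      refine Finset.sum_le_sum fun q _ => ?_
      obtain ⟨g, rfl⟩ := QuotientGroup.mk_surjective q
      rw [preim_mk]
      exact hcon g
    have h4 : μ.real (O \ Z) = μ.real O - μ.real Z := measureReal_sdiff hZO hZm
    rw [h4] at h2
    have h5 : (∑ q ∈ S, μ.real ((QuotientGroup.mk : G → G ⧸ U) ⁻¹' {q} \ Z)) * (k + 1) <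
        μ.real Z / (k + 1) * (k + 1) := by
      refine mul_lt_mul_of_pos_right ?_ hk
      linarith
    rw [div_mul_cancel₀ _ hk.ne'] at h5
    linarith
  refine ⟨g, U, hUn, hUo, hUH, fun k' hk' h hh => ?_⟩
  by_contra hcon
  push Not at hcon
  have h1 : (U : Set G) ⊆ ⋃ j ∈ (Finset.univ : Finset (Fin k')),
      (fun x => (g * h j) * x) ⁻¹' ((fun x => g⁻¹ * x) ⁻¹' (U : Set G) \ Z) := by
    intro x hx
    obtain ⟨j, hj⟩ := hcon x hx
    rw [Set.mem_iUnion₂]
    refine ⟨j, Finset.mem_univ j, ?_, hj⟩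
    change g⁻¹ * (g * h j * x) ∈ U
    have h2 : g⁻¹ * (g * h j * x) = h j * x := by group
    rw [h2]
    exact U.mul_mem (hh j) hx
  have h2 : μ.real (U : Set G) ≤ k' * μ.real ((fun x => g⁻¹ * x) ⁻¹' (U : Set G) \ Z) := by
    refine (measureReal_mono h1 (measure_ne_top μ _)).trans ((measureReal_biUnion_finset_le _ _).trans ?_)
    rw [Finset.sum_congr rfl fun j _ => real_translate μ (g * h j) _, Finset.sum_const,
      Finset.card_univ, Fintype.card_fin, nsmul_eq_mul]
  have h3 : (k' : ℝ) * μ.real ((fun x => g⁻¹ * x) ⁻¹' (U : Set G) \ Z) ≤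
      (k + 1) * μ.real ((fun x => g⁻¹ * x) ⁻¹' (U : Set G) \ Z) := by
    refine mul_le_mul_of_nonneg_right ?_ measureReal_nonneg
    have : (k' : ℝ) ≤ k := by exact_mod_cast hk'
    linarith
  linarith

end Pool.Agent.J6H90.SL
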