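import Pool.Agent.R401.Tr7
import Pool.Agent.J6H90.SL.Meas

/-!
# Project SL: Chebotarev's theorem for finite unions of closed sets
-/

set_option autoImplicit false
set_option maxHeartbeats 400000

open MeasureTheory Topology NumberField Filter IsDedekindDomain Pool.Agent.W401.Cheb
open Pool.Agent.R401.Eng Pool.Agent.R401.Sup2 Pool.Agent.W569.FM

namespace Pool.Agent.J6H90.SL

variable {K : Type} [Field K] [NumberField K]

theorem basis (V : Set (GK K)) (hV : V ∈ 𝓝 (1 : GK K)) :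
    ∃ U : Subgroup (GK K), U.Normal ∧ IsOpen (U : Set (GK K)) ∧ (U : Set (GK K)) ⊆ V := by
  obtain ⟨s, hs1, hs2, hs3⟩ := mem_nhds_iff.1 hV
  obtain ⟨U, hU⟩ := ProfiniteGrp.exist_openNormalSubgroup_sub_open_nhds_of_one hs2 hs3
  exact ⟨U, U.isNormal', U.isOpen', hU.trans hs1⟩

/-- If the Frobenius elements of a set of places of positive upper density lie in the union of
finitely many closed sets (invariant under conjugation), then one of the closed sets contains, for
a suitable coset `g U` of an open normal subgroup and up to `k` elements `h j` of `U`, all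
`g * h j * x`, for some `x` in `U`. -/
theorem key {ι : Type} [Finite ι] (Z : ι → Set (GK K)) (hcl : ∀ i, IsClosed (Z i))
    (hconj : ∀ g ∈ ⋃ i, Z i, ∀ x : GK K, x * g * x⁻¹ ∈ ⋃ i, Z i) {θ : ℝ} (hθ1 : θ < 1)
    (hθ : ∃ᶠ N : ℕ in atTop,
      dens (fun v : HeightOneSpectrum (𝓞 K) => ∃ g, IsFrob v g ∧ g ∉ ⋃ i, Z i) N ≤ θ)
    (H : Subgroup (GK K)) (hH : IsOpen (H : Set (GK K))) (k : ℕ) :
    ∃ (i : ι) (g : GK K) (U : Subgroup (GK K)), U.Normal ∧ IsOpen (U : Set (GK K)) ∧ U ≤ H ∧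
      ∀ k' ≤ k, ∀ h : Fin k' → GK K, (∀ j, h j ∈ U) → ∃ x ∈ U, ∀ j, g * h j * x ∈ Z i := by
  classical
  letI : MeasurableSpace (GK K) := borel _
  haveI : BorelSpace (GK K) := ⟨rfl⟩
  set μ : Measure (GK K) := Measure.haar with hμ
  have hex : ∃ i, μ (Z i) ≠ 0 := by
    by_contra hcon
    push Not at hcon
    have h0 : μ (⋃ i, Z i) = 0 := measure_iUnion_null hcon
    have huniv : 0 < μ.real Set.univ := by
      rw [measureReal_def]
      exact ENNReal.toReal_pos (NeZero.ne _) (measure_ne_top μ _)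
    have hpos : 0 < (1 - θ) * μ.real Set.univ := mul_pos (by linarith) huniv
    obtain ⟨O, hZO, hO, hμO⟩ := (⋃ i, Z i).exists_isOpen_lt_of_lt (μ := μ)
      (ENNReal.ofReal ((1 - θ) * μ.real Set.univ)) (by
        rw [h0]
        exact ENNReal.ofReal_pos.2 hpos)
    have hμO' : μ.real O < (1 - θ) * μ.real Set.univ := by
      rw [measureReal_def]
      have h2 := (ENNReal.toReal_lt_toReal (measure_ne_top μ O) ENNReal.ofReal_ne_top).2 hμO
      rwa [ENNReal.toReal_ofReal hpos.le] at h2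
    obtain ⟨U, hUn, hUo, -, hU⟩ := exists_U (basis (K := K)) (isClosed_iUnion_of_finite hcl) hO hZO ⊤
      isOpen_univ
    have hfin : Finite (GK K ⧸ U) := Subgroup.quotient_finite_of_isOpen _ hUo
    set C : Set (GK K) := {σ | ∀ u ∈ U, σ * u ∉ ⋃ i, Z i} with hC
    have hC1 : ∀ σ ∈ C, ∀ τ : GK K, τ * σ * τ⁻¹ ∈ C := by
      intro σ hσ τ u hu hG
      refine hσ (τ⁻¹ * u * τ) ?_ ?_
      · have := hUn.conj_mem u hu τ⁻¹
        rwa [inv_inv] at this
      · have h1 := hconj _ hG τ⁻¹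
        have h2 : τ⁻¹ * (τ * σ * τ⁻¹ * u) * τ⁻¹⁻¹ = σ * (τ⁻¹ * u * τ) := by group
        rwa [h2] at h1
    have hC2 : ∀ σ ∈ C, ∀ u ∈ U, σ * u ∈ C := by
      intro σ hσ u hu u' hu'
      rw [mul_assoc]
      exact hσ _ (U.mul_mem hu hu')
    have hcheb := Pool.Agent.Y142.chebK K U hUo C hC1 hC2
    have h6 : (0 : ℝ) < Nat.card (GK K ⧸ U) := by exact_mod_cast Nat.card_pos
    have hle : (((QuotientGroup.mk : GK K → GK K ⧸ U) '' C).ncard : ℝ) ≤
        θ * Nat.card (GK K ⧸ U) := by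
      have h1 : ∃ᶠ N : ℕ in atTop,
          dens (fun v : HeightOneSpectrum (𝓞 K) => ∃ σ ∈ C, IsFrob v σ) N ≤ θ := by
        refine hθ.mono fun N hN => le_trans (dens_le ?_ N) hN
        rintro v ⟨σ, hσ, hv⟩
        refine ⟨σ, hv, ?_⟩
        have := hσ 1 U.one_mem
        rwa [mul_one] at this
      have h2 := le_of_tendsto_of_frequently hcheb h1
      rwa [div_le_iff₀ h6] at h2
    have hft : Fintype (GK K ⧸ U) := Fintype.ofFinite _
    set S : Finset (GK K ⧸ U) := (Set.toFinite ((QuotientGroup.mk : GK K → GK K ⧸ U) '' C)).toFinset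
      with hS
    have h7 : (S.card : ℝ) ≤ θ * Nat.card (GK K ⧸ U) := by
      rw [hS, ← Set.ncard_eq_toFinset_card]
      exact hle
    have h8 := real_preimage μ U hUo S
    have h9 := real_preimage μ U hUo Finset.univ
    rw [Finset.coe_univ, Set.preimage_univ, Finset.card_univ, ← Nat.card_eq_fintype_card] at h9
    have h10 : (Set.univ : Set (GK K)) ⊆ ((QuotientGroup.mk : GK K → GK K ⧸ U) ⁻¹' S) ∪ O := by
      intro x _
      by_cases hx : x ∈ C
      · left
        rw [Set.mem_preimage, Finset.mem_coe, hS, Set.Finite.mem_toFinset]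
        exact ⟨x, hx, rfl⟩
      · right
        rw [hC, Set.mem_setOf_eq] at hx
        push Not at hx
        obtain ⟨u, hu, hxu⟩ := hx
        have h11 := hU _ hxu _ (U.inv_mem hu)
        rwa [mul_inv_cancel_right] at h11
    have h11 : μ.real Set.univ ≤ μ.real ((QuotientGroup.mk : GK K → GK K ⧸ U) ⁻¹' S) + μ.real O :=
      (measureReal_mono h10 (measure_ne_top μ _)).trans (measureReal_union_le _ _)
    have h12 : (S.card : ℝ) * μ.real (U : Set (GK K)) ≤
        θ * Nat.card (GK K ⧸ U) * μ.real (U : Set (GK K)) :=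
      mul_le_mul_of_nonneg_right h7 measureReal_nonneg
    rw [mul_assoc, ← h9] at h12
    linarith
  obtain ⟨i, hi⟩ := hex
  obtain ⟨g, U, h⟩ := translates μ (basis (K := K)) (hcl i) hi H hH k
  exact ⟨i, g, U, h⟩

end Pool.Agent.J6H90.SL
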