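import Pool.Agent.J6H90.SL.Alg
import Pool.Agent.J6H90.SK.Mas

/-!
# Project SL: representations with a large part of scalars

`V = A ⊕ A'`, `A` scalar, `A'` isomorphic to an absolutely irreducible `W`.
-/

set_option autoImplicit false

open Matrix Polynomial

namespace Pool.Agent.J6H90.SL

variable {k H : Type} [Field k] [Group H] {n m : ℕ}

/-- the decomposition -/
structure Dec (V : H →* Matrix (Fin n) (Fin n) k) (W : H →* Matrix (Fin m) (Fin m) k) (c : H →* k)
    (S : Matrix (Fin n) (Fin m) k) (R : Matrix (Fin m) (Fin n) k) : Prop where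
  hRS : R * S = 1
  hS : ∀ h, V h * S = S * W h
  hA : ∀ h, V h * (1 - S * R) = c h • (1 - S * R)
  hW : Submodule.span k (Set.range W) = ⊤

variable {V : H →* Matrix (Fin n) (Fin n) k} {W : H →* Matrix (Fin m) (Fin m) k} {c : H →* k}
  {S : Matrix (Fin n) (Fin m) k} {R : Matrix (Fin m) (Fin n) k} (D : Dec V W c S R)

include D in
theorem pow_S (h : H) (i : ℕ) : V h ^ i * S = S * W h ^ i := by
  induction i with
  | zero => rw [pow_zero, pow_zero, Matrix.one_mul, Matrix.mul_one]
  | succ i ih =>
    rw [pow_succ, pow_succ, Matrix.mul_assoc, D.hS h, ← Matrix.mul_assoc, ih,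
      Matrix.mul_assoc]

include D in
theorem pow_A (h : H) (i : ℕ) : V h ^ i * (1 - S * R) = c h ^ i • (1 - S * R) := by
  induction i with
  | zero => rw [pow_zero, pow_zero, one_mul, one_smul]
  | succ i ih =>
    rw [pow_succ, mul_assoc, D.hA h, Matrix.mul_smul, ih, smul_smul, pow_succ, mul_comm]

include D in
/-- polynomials in `V h` -/
theorem aeval_eq (h : H) (p : k[X]) :
    aeval (V h) p = S * aeval (W h) p * R + p.eval (c h) • (1 - S * R) := by
  have h1 : aeval (V h) p * S = S * aeval (W h) p := by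
    induction p using Polynomial.induction_on' with
    | add p q hp hq => rw [map_add, map_add, Matrix.add_mul, Matrix.mul_add, hp, hq]
    | monomial i a =>
      rw [aeval_monomial, aeval_monomial, Algebra.algebraMap_eq_smul_one,
        Algebra.algebraMap_eq_smul_one, smul_mul_assoc, one_mul, smul_mul_assoc, one_mul,
        Matrix.smul_mul, pow_S D h, Matrix.mul_smul]
  have h2 : aeval (V h) p * (1 - S * R) = p.eval (c h) • (1 - S * R) := by
    clear h1
    induction p using Polynomial.induction_on' with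
    | add p q hp hq => rw [map_add, add_mul, hp, hq, eval_add, add_smul]
    | monomial i a =>
      rw [aeval_monomial, Algebra.algebraMap_eq_smul_one, smul_mul_assoc, one_mul, smul_mul_assoc,
        pow_A D h, smul_smul, eval_monomial]
  calc aeval (V h) p = aeval (V h) p * (S * R) + aeval (V h) p * (1 - S * R) := by
        rw [← mul_add, add_sub_cancel, mul_one]
    _ = _ := by rw [← Matrix.mul_assoc, h1, h2]

include D in
/-- a polynomial which kills `W h` and `c h` kills `V h` -/
theorem kill (h : H) (p : k[X]) (hp : aeval (W h) p = 0)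
    (hc : p.eval (c h) = 0) : aeval (V h) p = 0 := by
  rw [aeval_eq D h p, hp, hc, zero_smul, add_zero, Matrix.mul_zero, Matrix.zero_mul]

/-- irreducibility of the second component -/
theorem irr (D : Dec V W c S R) (T : Submodule k (Fin n → k))
    (hT : ∀ h, ∀ x ∈ T, V h *ᵥ x ∈ T) (hTS : ∀ x ∈ T, S *ᵥ (R *ᵥ x) = x) (hne : T ≠ ⊥) (y : Fin m → k) :
    S *ᵥ y ∈ T := by
  obtain ⟨x, hx, hx0⟩ := (Submodule.ne_bot_iff T).1 hne
  have h0 : R *ᵥ x ≠ 0 := by
    intro h
    apply hx0
    rw [← hTS x hx, h, Matrix.mulVec_zero]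
  have h1 : ∀ Z : Matrix (Fin m) (Fin m) k, S *ᵥ (Z *ᵥ (R *ᵥ x)) ∈ T := by
    intro Z
    have h2 : Z ∈ Submodule.span k (Set.range W) := by
      rw [D.hW]
      exact Submodule.mem_top
    induction h2 using Submodule.span_induction with
    | mem z hz =>
      obtain ⟨h, rfl⟩ := hz
      have h3 : S *ᵥ (W h *ᵥ (R *ᵥ x)) = V h *ᵥ x := by
        rw [Matrix.mulVec_mulVec _ S (W h), ← D.hS h, ← Matrix.mulVec_mulVec, hTS x hx]
      rw [h3]
      exact hT h x hx
    | zero =>
      rw [Matrix.zero_mulVec, Matrix.mulVec_zero]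
      exact T.zero_mem
    | add a b _ _ ha hb =>
      rw [Matrix.add_mulVec, Matrix.mulVec_add]
      exact T.add_mem ha hb
    | smul a b _ hb =>
      rw [Matrix.smul_mulVec, Matrix.mulVec_smul]
      exact T.smul_mem _ hb
  obtain ⟨i, hi⟩ := Function.ne_iff.1 h0
  have h4 : (Matrix.of fun a b => if b = i then y a * ((R *ᵥ x) i)⁻¹ else 0) *ᵥ (R *ᵥ x) = y := by
    ext a
    simp only [Matrix.mulVec, dotProduct, Matrix.of_apply, ite_mul, zero_mul]
    rw [Finset.sum_ite_eq' Finset.univ i]
    simp only [Finset.mem_univ, if_true]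
    rw [mul_assoc, inv_mul_cancel₀, mul_one]
    exact hi
  have h5 := h1 (Matrix.of fun a b => if b = i then y a * ((R *ᵥ x) i)⁻¹ else 0)
  rwa [h4] at h5


end Pool.Agent.J6H90.SL
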