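import Pool.Agent.J6H90.SL.Fin

/-!
# Project SL: the dimension of the second summand is at least the rank of `W`
-/

set_option autoImplicit false

open Matrix Module

namespace Pool.Agent.J6H90.SL

section alg

variable {k H : Type} [Field k] [Group H] {m m' : ℕ}

theorem tr_lf' {V : H →* Matrix (Fin m') (Fin m') k} {W : H →* Matrix (Fin m) (Fin m) k} {c : H →* k}
    {P : Matrix (Fin m') (Fin m') k} {Q : Matrix (Fin m) (Fin m) k} {κ : k}
    (htr : ∀ h, (P * V h).trace - (Q * W h).trace = κ * c h) (y : MonoidAlgebra k H) :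
    (P * lf V y).trace - (Q * lf W y).trace = κ * lc c y := by
  induction y using MonoidAlgebra.induction_on with
  | of h =>
    rw [lf_of, lf_of, lc_of]
    exact htr h
  | add a b ha hb =>
    rw [map_add, map_add, map_add, mul_add, mul_add, Matrix.trace_add, Matrix.trace_add]
    linear_combination ha + hb
  | smul r a ha =>
    rw [map_smul, map_smul, map_smul, Matrix.mul_smul, Matrix.mul_smul, Matrix.trace_smul,
      Matrix.trace_smul, smul_eq_mul, smul_eq_mul, smul_eq_mul]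
    linear_combination r * ha

theorem dim_le {V : H →* Matrix (Fin m') (Fin m') k} {W : H →* Matrix (Fin m) (Fin m) k}
    {c : H →* k} {P : Matrix (Fin m') (Fin m') k} {Q : Matrix (Fin m) (Fin m) k} {κ : k}
    (hQ : IsUnit Q) (htr : ∀ h, (P * V h).trace - (Q * W h).trace = κ * c h)
    (hW : Submodule.span k (Set.range W) = ⊤) (hm : 2 ≤ m) : m ≤ m' := by
  classical
  have hsc : ∃ h, W h ≠ c h • (1 : Matrix (Fin m) (Fin m) k) := by
    by_contra hcon
    push Not at hcon
    have h3 : Matrix.single (⟨0, by omega⟩ : Fin m) (⟨1, by omega⟩ : Fin m) (1 : k) ∈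
        Submodule.span k (Set.range W) := by
      rw [hW]
      exact Submodule.mem_top
    have h4 : ∀ X ∈ Submodule.span k (Set.range W),
        X (⟨0, by omega⟩ : Fin m) (⟨1, by omega⟩ : Fin m) = 0 := by
      intro X hX
      induction hX using Submodule.span_induction with
      | mem z hz =>
        obtain ⟨h, rfl⟩ := hz
        rw [hcon, Matrix.smul_apply, Matrix.one_apply_ne, smul_zero]
        intro h0
        simpa using congrArg Fin.val h0
      | zero => rfl
      | add a b _ _ ha hb => rw [Matrix.add_apply, ha, hb, add_zero]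
      | smul a b _ hb => rw [Matrix.smul_apply, hb, smul_zero]
    have h5 := h4 _ h3
    rw [Matrix.single_apply_same] at h5
    exact one_ne_zero h5
  obtain ⟨h0, hh0⟩ := hsc
  obtain ⟨y0, hy0, hy0c⟩ := exists_y0 hW c hh0
  obtain ⟨σ, hσ⟩ := (lf W).toLinearMap.exists_rightInverse_of_surjective
    (LinearMap.range_eq_top.2 fun X => lf_surj hW X)
  have hσ' : ∀ X, lf W (σ X) = X := fun X => LinearMap.congr_fun hσ X
  let Φ : Matrix (Fin m) (Fin m) k →ₗ[k] Matrix (Fin m') (Fin m') k :=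
    (lf V).toLinearMap ∘ₗ (LinearMap.mulRight k y0) ∘ₗ σ
  have hΦ : ∀ X, Φ X = lf V (σ X * y0) := fun X => rfl
  have hinj : Function.Injective Φ := by
    rw [← LinearMap.ker_eq_bot, LinearMap.ker_eq_bot']
    intro X hX
    rw [hΦ] at hX
    have h1 : Q * X = 0 := by
      refine eq_zero fun Z => ?_
      have h2 := tr_lf' htr (σ X * y0 * σ Z)
      rw [map_mul (lf V), hX, zero_mul, Matrix.mul_zero, Matrix.trace_zero, map_mul (lf W),
        map_mul (lf W), hσ', hσ', hy0, mul_one, map_mul (lc c), map_mul (lc c), hy0c, mul_zero,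
        zero_mul, mul_zero, zero_sub, neg_eq_zero, ← mul_assoc] at h2
      exact h2
    exact (hQ.mul_right_eq_zero).1 h1
  have h1 := LinearMap.finrank_le_finrank_of_injective hinj
  rw [Module.finrank_matrix, Module.finrank_matrix, Module.finrank_self, mul_one, mul_one,
    Fintype.card_fin, Fintype.card_fin] at h1
  exact Nat.mul_self_le_mul_self_iff.1 h1

end alg

open NumberField Pool.Agent.W401.Cheb Pool.Agent.W569.FM Pool.Agent.R401.Sup3

variable {K : Type} [Field K] [NumberField K] {ℓ : ℕ} [Fact ℓ.Prime] {n m m' : ℕ}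

theorem le_dim {V : GK K →* Matrix (Fin n) (Fin n) ℚ_[ℓ]}
    {W : GK K →* Matrix (Fin m) (Fin m) ℚ_[ℓ]} {u : ℤ}
    {A A' : Submodule ℚ_[ℓ] (Fin n → ℚ_[ℓ])} {S : Matrix (Fin n) (Fin m') ℚ_[ℓ]}
    {R : Matrix (Fin m') (Fin n) ℚ_[ℓ]} (hRS : R * S = 1) (h1 : ∀ y, S *ᵥ y ∈ A')
    (h2 : ∀ x ∈ A', S *ᵥ (R *ᵥ x) = x) (h3 : ∀ x, x - S *ᵥ (R *ᵥ x) ∈ A)
    (hA' : ∀ g, ∀ x ∈ A', V g *ᵥ x ∈ A') {g : GK K} {κ : ℚ_[ℓ]} {U : Subgroup (GK K)}
    (hA : ∀ g ∈ U, ∀ x ∈ A, V g *ᵥ x = cyc K ℓ ℚ_[ℓ] g ^ (-u) • x)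
    (htr : ∀ x ∈ U, (V g * V x).trace - (W g * W x).trace = κ * cyc K ℓ ℚ_[ℓ] x ^ (-u))
    (hW : Submodule.span ℚ_[ℓ] (Set.range (W.comp U.subtype)) = ⊤) (hm : 2 ≤ m) : m ≤ m' := by
  have hS : ∀ g, S * (R * V g * S) = V g * S := by
    intro g
    refine ext_mv fun y => ?_
    have h4 := h2 _ (hA' g _ (h1 y))
    simp only [← Matrix.mulVec_mulVec]
    exact h4
  have hAc : ∀ g ∈ U, V g * (1 - S * R) = cyc K ℓ ℚ_[ℓ] g ^ (-u) • (1 - S * R) := by
    intro g hg
    refine ext_mv fun x => ?_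
    have h4 := hA g hg _ (h3 x)
    rw [← Matrix.mulVec_mulVec, Matrix.sub_mulVec, Matrix.one_mulVec, Matrix.smul_mulVec,
      Matrix.sub_mulVec, Matrix.one_mulVec, ← Matrix.mulVec_mulVec]
    exact h4
  have hmul : ∀ x y, R * V (x * y) * S = R * V x * S * (R * V y * S) := by
    intro x y
    rw [Matrix.mul_assoc (R * V x) S, hS, map_mul]
    simp only [Matrix.mul_assoc]
  let V' : U →* Matrix (Fin m') (Fin m') ℚ_[ℓ] :=
    { toFun := fun h => R * V h * S
      map_one' := by rw [Subgroup.coe_one, map_one, Matrix.mul_one, hRS]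
      map_mul' := fun x y => by rw [Subgroup.coe_mul, hmul] }
  have hV' : ∀ x : U, V' x = R * V x * S := fun _ => rfl
  have hQ : IsUnit (W g) :=
    ⟨⟨W g, W g⁻¹, by rw [← map_mul, mul_inv_cancel, map_one],
      by rw [← map_mul, inv_mul_cancel, map_one]⟩, rfl⟩
  refine dim_le (V := V') (W := W.comp U.subtype) (c := chr u U) (P := R * V g * S) hQ
    (κ := κ - (V g * (1 - S * R)).trace) ?_ hW hm
  intro x
  have e1 : (R * V g * S * V' x).trace = (V g * V x * (S * R)).trace := by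
    rw [hV', ← hmul, map_mul, Matrix.mul_assoc R, Matrix.trace_mul_comm, Matrix.mul_assoc]
  have e2 : (V g * V x).trace = (V g * V x * (S * R)).trace +
      cyc K ℓ ℚ_[ℓ] x ^ (-u) * (V g * (1 - S * R)).trace := by
    have e6 : (V g * V x * (1 - S * R)).trace =
        cyc K ℓ ℚ_[ℓ] x ^ (-u) * (V g * (1 - S * R)).trace := by
      rw [mul_assoc, hAc x x.2, Matrix.mul_smul, Matrix.trace_smul, smul_eq_mul]
    rw [← e6, ← Matrix.trace_add, ← mul_add, add_sub_cancel, mul_one]
  have e3 := htr x x.2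
  have e4 : chr (ℓ := ℓ) u U x = cyc K ℓ ℚ_[ℓ] x ^ (-u) := rfl
  have e5 : (W.comp U.subtype) x = W x := rfl
  rw [e1, e4, e5]
  linear_combination e3 - e2

end Pool.Agent.J6H90.SL
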