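import Pool.Agent.J6H90.SL.Dec

/-!
# Project SL: semisimplicity
-/

set_option autoImplicit false

open Matrix

namespace Pool.Agent.J6H90.SL

variable {k G : Type} [Field k] [CharZero k] [Group G] {n m : ℕ}

theorem semis (V : G →* Matrix (Fin n) (Fin n) k) (H : Subgroup G) [H.FiniteIndex]
    {W : H →* Matrix (Fin m) (Fin m) k} {c : H →* k} {S : Matrix (Fin n) (Fin m) k}
    {R : Matrix (Fin m) (Fin n) k} (D : Dec (V.comp H.subtype) W c S R)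
    {A A' : Submodule k (Fin n → k)} (hc : IsCompl A A') (h1 : ∀ y, S *ᵥ y ∈ A')
    (h2 : ∀ x ∈ A', S *ᵥ (R *ᵥ x) = x) (h3 : ∀ x, x - S *ᵥ (R *ᵥ x) ∈ A)
    (hAs : ∀ g, ∀ x ∈ A, V g *ᵥ x ∈ A) (hAs' : ∀ g, ∀ x ∈ A', V g *ᵥ x ∈ A')
    (hA : ∀ h : H, ∀ x ∈ A, V h *ᵥ x = c h • x) (T : Submodule k (Fin n → k))
    (hT : ∀ g, ∀ x ∈ T, V g *ᵥ x ∈ T) :
    ∃ C : Submodule k (Fin n → k), (∀ g, ∀ x ∈ C, V g *ᵥ x ∈ C) ∧ IsCompl T C := by
  have hirr : ∀ L : Submodule k (Fin n → k), L ≤ A' → (∀ h : H, ∀ x ∈ L, V h *ᵥ x ∈ L) → L ≠ ⊥ →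
      A' ≤ L := by
    intro L hL hLs hne x hx
    rw [← h2 x hx]
    exact irr D L hLs (fun y hy => h2 y (hL hy)) hne _
  have hsA : ∀ h ∈ H, ∃ c : k, ∀ x ∈ A, V h *ᵥ x = c • x := fun h hh => ⟨c ⟨h, hh⟩, hA ⟨h, hh⟩⟩
  by_cases hA'T : A' ≤ T
  · obtain ⟨C, hCA, hCs, hC1, hC2⟩ := Pool.Agent.J6H90.SK.maschke V H (A := A) (T := T ⊓ A) inf_le_right hAs
      (fun g x hx => ⟨hT g x hx.1, hAs g x hx.2⟩) hsA
    refine ⟨C, hCs, ?_, ?_⟩
    · rw [disjoint_iff, eq_bot_iff]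
      rintro x ⟨hx1, hx2⟩
      rw [← hC1]
      exact ⟨⟨hx1, hCA hx2⟩, hx2⟩
    · rw [codisjoint_iff, eq_top_iff, ← hc.sup_eq_top, ← hC2]
      refine sup_le (sup_le (inf_le_left.trans le_sup_left) le_sup_right) (hA'T.trans le_sup_left)
  have hTA' : T ⊓ A' = ⊥ := by
    by_contra hne
    exact hA'T ((hirr (T ⊓ A') inf_le_right
      (fun h x hx => ⟨hT _ x hx.1, hAs' _ x hx.2⟩) hne).trans inf_le_left)
  have hscal : ∀ t ∈ T, ∀ h : H, V h *ᵥ (S *ᵥ (R *ᵥ t)) = c h • (S *ᵥ (R *ᵥ t)) := by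
    intro t ht h
    set s := S *ᵥ (R *ᵥ t) with hs
    have h4 := hA h _ (h3 t)
    rw [Matrix.mulVec_sub, smul_sub, ← hs] at h4
    have h5 : V h *ᵥ s - c h • s ∈ T ⊓ A' := by
      refine ⟨?_, A'.sub_mem (hAs' _ _ (h1 _)) (A'.smul_mem _ (h1 _))⟩
      have h6 : V h *ᵥ s - c h • s = V h *ᵥ t - c h • t := by
        have h7 : V h *ᵥ t = c h • t - c h • s + V h *ᵥ s := by
          rw [← h4]
          abel
        rw [h7]
        abel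
      rw [h6]
      exact T.sub_mem (hT _ _ ht) (T.smul_mem _ ht)
    rw [hTA', Submodule.mem_bot, sub_eq_zero] at h5
    exact h5
  by_cases hall : ∀ t ∈ T, S *ᵥ (R *ᵥ t) = 0
  · have hTA : T ≤ A := by
      intro t ht
      have h4 := h3 t
      rwa [hall t ht, sub_zero] at h4
    obtain ⟨C, hCA, hCs, hC1, hC2⟩ := Pool.Agent.J6H90.SK.maschke V H hTA hAs hT hsA
    refine ⟨C ⊔ A', ?_, ?_, ?_⟩
    · intro g x hx
      obtain ⟨y, hy, z, hz, rfl⟩ := Submodule.mem_sup.1 hx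
      rw [Matrix.mulVec_add]
      exact Submodule.add_mem_sup (hCs g y hy) (hAs' g z hz)
    · rw [disjoint_iff, eq_bot_iff]
      rintro x ⟨hx1, hx2⟩
      obtain ⟨y, hy, z, hz, rfl⟩ := Submodule.mem_sup.1 hx2
      have h4 : z ∈ A ⊓ A' := by
        refine ⟨?_, hz⟩
        have h5 := A.sub_mem (hTA hx1) (hCA hy)
        rwa [add_sub_cancel_left] at h5
      rw [hc.inf_eq_bot, Submodule.mem_bot] at h4
      rw [h4, add_zero] at hx1 ⊢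
      rw [← hC1]
      exact ⟨hx1, hy⟩
    · rw [codisjoint_iff, ← sup_assoc, hC2, hc.sup_eq_top]
  · push Not at hall
    obtain ⟨t, ht, hne⟩ := hall
    let L : Submodule k (Fin n → k) :=
      { carrier := {x | x ∈ A' ∧ ∀ h : H, V h *ᵥ x = c h • x}
        add_mem' := by
          rintro x y ⟨hx, hx'⟩ ⟨hy, hy'⟩
          exact ⟨A'.add_mem hx hy, fun h => by rw [Matrix.mulVec_add, hx', hy', smul_add]⟩
        zero_mem' := ⟨A'.zero_mem, fun h => by rw [Matrix.mulVec_zero, smul_zero]⟩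
        smul_mem' := by
          rintro a x ⟨hx, hx'⟩
          exact ⟨A'.smul_mem _ hx, fun h => by rw [Matrix.mulVec_smul, hx', smul_comm]⟩ }
    have hL : A' ≤ L := by
      refine hirr L (fun x hx => hx.1) ?_ ?_
      · rintro h x ⟨hx, hx'⟩
        rw [hx' h]
        exact L.smul_mem _ ⟨hx, hx'⟩
      · refine (Submodule.ne_bot_iff L).2 ⟨S *ᵥ (R *ᵥ t), ⟨h1 _, hscal t ht⟩, hne⟩
    have hsc : ∀ h ∈ H, ∃ c : k, ∀ x ∈ (⊤ : Submodule k (Fin n → k)), V h *ᵥ x = c • x := by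
      intro h hh
      refine ⟨c ⟨h, hh⟩, fun x _ => ?_⟩
      have h4 := hA ⟨h, hh⟩ _ (h3 x)
      have h5 := (hL (h1 (R *ᵥ x))).2 ⟨h, hh⟩
      have h6 : x = (x - S *ᵥ (R *ᵥ x)) + S *ᵥ (R *ᵥ x) := (sub_add_cancel _ _).symm
      rw [h6, Matrix.mulVec_add, smul_add]
      exact congrArg₂ _ h4 h5
    obtain ⟨C, -, hCs, hC1, hC2⟩ := Pool.Agent.J6H90.SK.maschke V H (A := ⊤) (T := T) le_top
      (fun _ _ _ => Submodule.mem_top) hT hsc
    exact ⟨C, hCs, disjoint_iff.2 hC1, codisjoint_iff.2 hC2⟩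

end Pool.Agent.J6H90.SL
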