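import Pool.Agent.J6H90.SL.Gal
import Pool.Agent.J6H90.SL.Ss
import Pool.Agent.J6H90.SF.PROOT

/-!
# Project SL: the decomposition on an open subgroup
-/

set_option autoImplicit false

namespace Pool.Agent.J6H90.SL

open NumberField Filter Topology Pool.Agent.W401.Cheb Pool.Agent.W569.FM Pool.Agent.R401.Sup3 Pool.Agent.R401.Img
open Pool.Agent.R401.Sup (c_ne c_inv)
open Pool.Agent.R401.Tr9 (mh)
open Polynomial Matrix Module

section lin

variable {k : Type} [Field k] {n m : ℕ}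

/-- the matrices of the decomposition -/
theorem exists_SR {A A' : Submodule k (Fin n → k)} (hc : IsCompl A A') (hm : finrank k A' = m) :
    ∃ (S : Matrix (Fin n) (Fin m) k) (R : Matrix (Fin m) (Fin n) k), R * S = 1 ∧
      (∀ y, S *ᵥ y ∈ A') ∧ (∀ x ∈ A', S *ᵥ (R *ᵥ x) = x) ∧ ∀ x, x - S *ᵥ (R *ᵥ x) ∈ A := by
  classical
  let b : Basis (Fin m) k A' := Module.finBasisOfFinrankEq k A' hm
  let s : (Fin m → k) →ₗ[k] (Fin n → k) := A'.subtype ∘ₗ b.equivFun.symm.toLinearMap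
  let r : (Fin n → k) →ₗ[k] (Fin m → k) :=
    b.equivFun.toLinearMap ∘ₗ (Submodule.projectionOnto A' A hc.symm)
  have hs : ∀ y, s y ∈ A' := fun y => (b.equivFun.symm y).2
  have hrs : ∀ y, r (s y) = y := by
    intro y
    change b.equivFun (Submodule.projectionOnto A' A hc.symm (b.equivFun.symm y : A')) = y
    rw [Submodule.projectionOnto_apply_left, LinearEquiv.apply_symm_apply]
  have hsr : ∀ x, s (r x) = Submodule.projectionOnto A' A hc.symm x := by
    intro x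
    change ((b.equivFun.symm (b.equivFun (Submodule.projectionOnto A' A hc.symm x)) : A') :
      Fin n → k) = _
    rw [LinearEquiv.symm_apply_apply]
  refine ⟨LinearMap.toMatrix' s, LinearMap.toMatrix' r, ?_, ?_, ?_, ?_⟩
  · rw [← LinearMap.toMatrix'_comp]
    have h1 : r ∘ₗ s = LinearMap.id := LinearMap.ext hrs
    rw [h1, LinearMap.toMatrix'_id]
  · intro y
    rw [LinearMap.toMatrix'_mulVec]
    exact hs y
  · intro x hx
    rw [LinearMap.toMatrix'_mulVec, LinearMap.toMatrix'_mulVec, hsr]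
    exact congrArg Subtype.val (Submodule.projectionOnto_apply_left hc.symm ⟨x, hx⟩)
  · intro x
    rw [LinearMap.toMatrix'_mulVec, LinearMap.toMatrix'_mulVec, hsr]
    have h1 : Submodule.projectionOnto A' A hc.symm
        (x - (Submodule.projectionOnto A' A hc.symm x : Fin n → k)) = 0 := by
      rw [map_sub, Submodule.projectionOnto_apply_left, sub_self]
    exact (Submodule.projectionOnto_apply_eq_zero_iff hc.symm).1 h1

theorem ext_mv {a b : ℕ} {X Y : Matrix (Fin a) (Fin b) k} (h : ∀ x, X *ᵥ x = Y *ᵥ x) : X = Y :=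
  Matrix.toLin'.injective (LinearMap.ext fun x => by simpa using h x)

end lin

variable {K : Type} [Field K] [NumberField K] {ℓ : ℕ} [Fact ℓ.Prime] {n m : ℕ}

/-- the character -/
noncomputable def chr (u : ℤ) (H : Subgroup (GK K)) : H →* ℚ_[ℓ] where
  toFun h := cyc K ℓ ℚ_[ℓ] h ^ (-u)
  map_one' := by rw [Subgroup.coe_one, map_one, _root_.one_zpow]
  map_mul' x y := by rw [Subgroup.coe_mul, map_mul, mul_zpow]

theorem exists_dec {V : GK K →* Matrix (Fin n) (Fin n) ℚ_[ℓ]}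
    {W : GK K →* Matrix (Fin m) (Fin m) ℚ_[ℓ]} {u : ℤ}
    {A A' : Submodule ℚ_[ℓ] (Fin n → ℚ_[ℓ])} {S : Matrix (Fin n) (Fin m) ℚ_[ℓ]}
    {R : Matrix (Fin m) (Fin n) ℚ_[ℓ]} (hRS : R * S = 1) (h1 : ∀ y, S *ᵥ y ∈ A')
    (h2 : ∀ x ∈ A', S *ᵥ (R *ᵥ x) = x) (h3 : ∀ x, x - S *ᵥ (R *ᵥ x) ∈ A)
    (hA' : ∀ g, ∀ x ∈ A', V g *ᵥ x ∈ A') {g : GK K} {κ : ℚ_[ℓ]} {U : Subgroup (GK K)}
    (hA : ∀ g ∈ U, ∀ x ∈ A, V g *ᵥ x = cyc K ℓ ℚ_[ℓ] g ^ (-u) • x)
    (htr : ∀ x ∈ U, (V g * V x).trace - (W g * W x).trace = κ * cyc K ℓ ℚ_[ℓ] x ^ (-u))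
    (hW : Submodule.span ℚ_[ℓ] (Set.range (W.comp U.subtype)) = ⊤) :
    ∃ (S' : Matrix (Fin n) (Fin m) ℚ_[ℓ]) (R' : Matrix (Fin m) (Fin n) ℚ_[ℓ]),
      S' * R' = S * R ∧ (∀ y, S' *ᵥ y ∈ A') ∧
        Dec (V.comp U.subtype) (W.comp U.subtype) (chr u U) S' R' := by
  have hS : ∀ g, S * (R * V g * S) = V g * S := by
    intro g
    refine ext_mv fun y => ?_
    have h4 := h2 _ (hA' g _ (h1 y))
    simp only [← Matrix.mulVec_mulVec]
    exact h4
  have hAc : ∀ g ∈ U, V g * (1 - S * R) = cyc K ℓ ℚ_[ℓ] g ^ (-u) • (1 - S * R) := by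
    intro g hg
    refine ext_mv fun x => ?_
    have h4 := hA g hg _ (h3 x)
    rw [← Matrix.mulVec_mulVec, Matrix.sub_mulVec, Matrix.one_mulVec, Matrix.smul_mulVec,
      Matrix.sub_mulVec, Matrix.one_mulVec, ← Matrix.mulVec_mulVec]
    exact h4
  have hmul : ∀ x y, R * V (x * y) * S = R * V x * S * (R * V y * S) := by
    intro x y
    rw [Matrix.mul_assoc (R * V x) S, hS, map_mul]
    simp only [Matrix.mul_assoc]
  let V' : U →* Matrix (Fin m) (Fin m) ℚ_[ℓ] :=
    { toFun := fun h => R * V h * S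
      map_one' := by rw [Subgroup.coe_one, map_one, Matrix.mul_one, hRS]
      map_mul' := fun x y => by rw [Subgroup.coe_mul, hmul] }
  have hV' : ∀ x : U, V' x = R * V x * S := fun _ => rfl
  have hP : IsUnit (R * V g * S) :=
    ⟨⟨R * V g * S, R * V g⁻¹ * S, by rw [← hmul, mul_inv_cancel, map_one, Matrix.mul_one, hRS],
      by rw [← hmul, inv_mul_cancel, map_one, Matrix.mul_one, hRS]⟩, rfl⟩
  have hQ : IsUnit (W g) :=
    ⟨⟨W g, W g⁻¹, by rw [← map_mul, mul_inv_cancel, map_one],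
      by rw [← map_mul, inv_mul_cancel, map_one]⟩, rfl⟩
  obtain ⟨T, T', hTT, hTT', hT⟩ := main (V := V') (W := W.comp U.subtype) (c := chr u U) hP hQ
    (κ := κ - (V g * (1 - S * R)).trace) (by
      intro x
      have e1 : (R * V g * S * V' x).trace = (V g * V x * (S * R)).trace := by
        rw [hV', ← hmul, map_mul, Matrix.mul_assoc R, Matrix.trace_mul_comm, Matrix.mul_assoc]
      have e2 : (V g * V x).trace = (V g * V x * (S * R)).trace +
          cyc K ℓ ℚ_[ℓ] x ^ (-u) * (V g * (1 - S * R)).trace := by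
        have e6 : (V g * V x * (1 - S * R)).trace =
            cyc K ℓ ℚ_[ℓ] x ^ (-u) * (V g * (1 - S * R)).trace := by
          rw [mul_assoc, hAc x x.2, Matrix.mul_smul, Matrix.trace_smul, smul_eq_mul]
        rw [← e6, ← Matrix.trace_add, ← mul_add, add_sub_cancel, mul_one]
      have e3 := htr x x.2
      have e4 : chr (ℓ := ℓ) u U x = cyc K ℓ ℚ_[ℓ] x ^ (-u) := rfl
      have e5 : (W.comp U.subtype) x = W x := rfl
      rw [e1, e4, e5]
      linear_combination e3 - e2) hW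
  refine ⟨S * T, T' * R, ?_, ?_, ?_, ?_, ?_, hW⟩
  · rw [Matrix.mul_assoc, ← Matrix.mul_assoc T, hTT', Matrix.one_mul]
  · intro y
    rw [← Matrix.mulVec_mulVec]
    exact h1 _
  · rw [Matrix.mul_assoc, ← Matrix.mul_assoc R, hRS, Matrix.one_mul, hTT]
  · intro x
    change V x * (S * T) = S * T * W x
    rw [← Matrix.mul_assoc, ← hS, Matrix.mul_assoc S, ← hV', hT x, ← Matrix.mul_assoc]
    rfl
  · intro x
    have h5 : S * T * (T' * R) = S * R := by
      rw [Matrix.mul_assoc, ← Matrix.mul_assoc T, hTT', Matrix.one_mul]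
    rw [h5]
    exact hAc x x.2

end Pool.Agent.J6H90.SL
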