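import Pool.Agent.J6H90.SL.Chb
import Pool.Agent.R401.Tr9

/-!
# Project SL: the traces on a coset
-/

set_option autoImplicit false
set_option maxHeartbeats 400000

namespace Pool.Agent.J6H90.SL

open NumberField Filter Topology IsDedekindDomain Pool.Agent.W401.Cheb Pool.Agent.R401.Sup
open Pool.Agent.W569.FM Pool.Agent.R401.Img Pool.Agent.R401.Eng Pool.Agent.R401.Sup2
open Pool.Agent.R401.Sup3 Module Matrix

variable {K : Type} [Field K] [NumberField K]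

theorem finite_kappa (d : ℕ) (hd : 0 < d) (C : ℝ) :
    Finite {κ : ℚ // (∃ c : ℤ, (d : ℚ) * κ ^ 2 = c) ∧ (κ : ℝ) ^ 2 ≤ C} := by
  have hd' : (0 : ℝ) < d := by exact_mod_cast hd
  have h1 : (⋃ c ∈ (Set.Icc (0 : ℤ) ⌊(d : ℝ) * C⌋), {κ : ℚ | (d : ℚ) * κ ^ 2 = c}).Finite := by
    refine (Set.finite_Icc _ _).biUnion fun c _ => ?_
    by_cases hne : ∃ κ₀ : ℚ, (d : ℚ) * κ₀ ^ 2 = c
    · obtain ⟨κ₀, h0⟩ := hne
      refine (Set.toFinite {κ₀, -κ₀}).subset fun κ hκ => ?_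
      have h2 : (d : ℚ) * κ ^ 2 = (d : ℚ) * κ₀ ^ 2 := by
        rw [h0]
        exact hκ
      have hdq : (d : ℚ) ≠ 0 := by exact_mod_cast hd.ne'
      have h3 := mul_left_cancel₀ hdq h2
      rcases sq_eq_sq_iff_eq_or_eq_neg.1 h3 with h | h
      · exact Or.inl h
      · exact Or.inr h
    · refine Set.Finite.subset Set.finite_empty fun κ hκ => ?_
      exact absurd ⟨κ, hκ⟩ hne
  refine Set.Finite.to_subtype (s := {κ : ℚ | (∃ c : ℤ, (d : ℚ) * κ ^ 2 = c) ∧ (κ : ℝ) ^ 2 ≤ C})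
    (h1.subset ?_)
  rintro κ ⟨⟨c, hc⟩, hκ⟩
  rw [Set.mem_iUnion₂]
  refine ⟨c, ⟨?_, ?_⟩, hc⟩
  · have h2 : (0 : ℚ) ≤ c := by
      rw [← hc]
      positivity
    exact_mod_cast h2
  · rw [Int.le_floor]
    have h2 : ((d : ℚ) * κ ^ 2 : ℝ) = c := by exact_mod_cast congrArg (Rat.cast : ℚ → ℝ) hc
    push_cast at h2
    rw [← h2]
    exact mul_le_mul_of_nonneg_left hκ hd'.le

variable {ℓ : ℕ} [Fact ℓ.Prime] {n m : ℕ}

theorem coset (ρ : GK K →* GL (Fin n) ℚ_[ℓ]) (hρ : Continuous ρ) (η : GK K →* GL (Fin m) ℚ_[ℓ])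
    (hη : Continuous η) (B : Set (HeightOneSpectrum (𝓞 K))) (hB : B.Finite)
    (a : HeightOneSpectrum (𝓞 K) → ℚ) (u : ℤ)
    (htr : ∀ v, v ∉ B → (ℓ : 𝓞 K) ∉ v.asIdeal → ∀ g, IsFrob v g →
      (mt ρ g⁻¹).trace - (mt η g⁻¹).trace = (a v : ℚ_[ℓ]))
    (C : ℝ) (hC : ∀ v, v ∉ B → (a v : ℝ) ^ 2 ≤ C * (Ideal.absNorm v.asIdeal : ℝ) ^ (2 * u))
    (θ : ℝ) (hθ : θ < 1) {d : ℕ} (hd : 0 < d)
    (hP : ∃ᶠ N : ℕ in atTop, dens (fun v : HeightOneSpectrum (𝓞 K) =>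
      ¬ ∃ c : ℤ, (d : ℚ) * a v ^ 2 = (Ideal.absNorm v.asIdeal : ℚ) ^ (2 * u) * c) N ≤ θ)
    (H : Subgroup (GK K)) (hH : IsOpen (H : Set (GK K))) :
    ∃ (g : GK K) (κ : ℚ_[ℓ]) (U : Subgroup (GK K)), U.Normal ∧ IsOpen (U : Set (GK K)) ∧ U ≤ H ∧
      ∀ x ∈ U, (mt ρ g * mt ρ x).trace - (mt η g * mt η x).trace = κ * cyc K ℓ ℚ_[ℓ] x ^ (-u) := by
  classical
  have hcn : ∀ x : GK K, cyc K ℓ ℚ_[ℓ] x ≠ 0 := fun x => c_ne _ x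
  set ι : Type := {κ : ℚ // (∃ c : ℤ, (d : ℚ) * κ ^ 2 = c) ∧ (κ : ℝ) ^ 2 ≤ C} with hι
  have hfin : Finite ι := finite_kappa d hd C
  set Z : ι → Set (GK K) := fun κ => {g | (mt ρ g⁻¹).trace - (mt η g⁻¹).trace =
    ((κ.1 : ℚ) : ℚ_[ℓ]) * cyc K ℓ ℚ_[ℓ] g ^ u} with hZ
  have hmem : ∀ κ g, g ∈ Z κ ↔ (mt ρ g⁻¹).trace - (mt η g⁻¹).trace =
    ((κ.1 : ℚ) : ℚ_[ℓ]) * cyc K ℓ ℚ_[ℓ] g ^ u := fun κ g => Iff.rfl
  have hcl : ∀ i, IsClosed (Z i) := by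
    intro i
    refine isClosed_eq ?_ ?_
    · exact ((continuous_trace ρ hρ).comp continuous_inv).sub
        ((continuous_trace η hη).comp continuous_inv)
    · exact continuous_const.mul ((continuous_cyc K ℓ ℚ_[ℓ]).zpow₀ u fun x => Or.inl (hcn x))
  have hconj : ∀ g ∈ ⋃ i, Z i, ∀ x : GK K, x * g * x⁻¹ ∈ ⋃ i, Z i := by
    intro g hg x
    obtain ⟨κ, hκ⟩ := Set.mem_iUnion.1 hg
    refine Set.mem_iUnion.2 ⟨κ, ?_⟩
    rw [hmem] at hκ ⊢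
    have h1 : (x * g * x⁻¹)⁻¹ = x * (g⁻¹ * x⁻¹) := by group
    have h2 : cyc K ℓ ℚ_[ℓ] (x * g * x⁻¹) = cyc K ℓ ℚ_[ℓ] g := by
      rw [map_mul, map_mul, c_inv]
      field_simp [hcn x]
    have e : ∀ {r : ℕ} (σ : GK K →* GL (Fin r) ℚ_[ℓ]),
        (mt σ (x * g * x⁻¹)⁻¹).trace = (mt σ g⁻¹).trace := by
      intro r σ
      have h3 : g⁻¹ * x⁻¹ * x = g⁻¹ := by group
      rw [h1, mt_mul, Matrix.trace_mul_comm, ← mt_mul, h3]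
    rw [e, e, h2]
    exact hκ
  have hθ2 : 0 < (1 - θ) / 4 := by linarith
  have hbad : ∃ᶠ N : ℕ in atTop, dens (fun v : HeightOneSpectrum (𝓞 K) =>
      ∃ g, IsFrob v g ∧ g ∉ ⋃ i, Z i) N ≤ θ + 2 * ((1 - θ) / 4) := by
    have hBd : ∀ᶠ N : ℕ in atTop, dens (fun v : HeightOneSpectrum (𝓞 K) => v ∈ B) N ≤
        (1 - θ) / 4 :=
      (dens_fin (fun v : HeightOneSpectrum (𝓞 K) => v ∈ B) hB).eventually (ge_mem_nhds hθ2)
    have hpd : ∀ᶠ N : ℕ in atTop, dens (fun v : HeightOneSpectrum (𝓞 K) =>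
        (ℓ : 𝓞 K) ∈ v.asIdeal) N ≤ (1 - θ) / 4 :=
      (dens_fin (fun v : HeightOneSpectrum (𝓞 K) => (ℓ : 𝓞 K) ∈ v.asIdeal)
        (Pool.Agent.W352.ChAbs.over_le ℓ (Fact.out : ℓ.Prime)).1).eventually (ge_mem_nhds hθ2)
    refine (hP.and_eventually (hBd.and hpd)).mono ?_
    rintro N ⟨h1, h2, h3⟩
    have h4 : dens (fun v : HeightOneSpectrum (𝓞 K) => ∃ g, IsFrob v g ∧ g ∉ ⋃ i, Z i) N ≤
        dens (fun v : HeightOneSpectrum (𝓞 K) =>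
          (¬ ∃ c : ℤ, (d : ℚ) * a v ^ 2 = (Ideal.absNorm v.asIdeal : ℚ) ^ (2 * u) * c) ∨
            (v ∈ B ∨ (ℓ : 𝓞 K) ∈ v.asIdeal)) N := by
      refine dens_le ?_ N
      rintro v ⟨g, hg, hgZ⟩
      by_contra hcon
      push Not at hcon
      obtain ⟨⟨c, hc⟩, hvB, hvℓ⟩ := hcon
      apply hgZ
      have hN0 : (Ideal.absNorm v.asIdeal : ℚ) ≠ 0 := by
        exact_mod_cast fun h0 => v.ne_bot (Ideal.absNorm_eq_zero_iff.1 h0)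
      have hNp : (0 : ℝ) < (Ideal.absNorm v.asIdeal : ℝ) ^ (2 * u) := by
        have : (0 : ℝ) < Ideal.absNorm v.asIdeal := by
          exact_mod_cast Nat.pos_of_ne_zero fun h0 => v.ne_bot (Ideal.absNorm_eq_zero_iff.1 h0)
        positivity
      have hNu : ((Ideal.absNorm v.asIdeal : ℚ) ^ u) ^ 2 = (Ideal.absNorm v.asIdeal : ℚ) ^ (2 * u) := by
        rw [← zpow_natCast, ← _root_.zpow_mul, mul_comm]
        norm_num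
      have hN2 : (Ideal.absNorm v.asIdeal : ℚ) ^ (2 * u) ≠ 0 := zpow_ne_zero _ hN0
      refine Set.mem_iUnion.2 ⟨⟨a v / (Ideal.absNorm v.asIdeal : ℚ) ^ u, ⟨c, ?_⟩, ?_⟩, ?_⟩
      · rw [div_pow, hNu, mul_div_assoc', hc, mul_div_cancel_left₀ _ hN2]
      · have h5 := hC v hvB
        have h6 : ((a v / (Ideal.absNorm v.asIdeal : ℚ) ^ u : ℚ) : ℝ) ^ 2 =
            (a v : ℝ) ^ 2 / (Ideal.absNorm v.asIdeal : ℝ) ^ (2 * u) := by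
          have h7 : (a v / (Ideal.absNorm v.asIdeal : ℚ) ^ u) ^ 2 =
              a v ^ 2 / (Ideal.absNorm v.asIdeal : ℚ) ^ (2 * u) := by rw [div_pow, hNu]
          have h8 := congrArg (Rat.cast : ℚ → ℝ) h7
          push_cast at h8 ⊢
          exact h8
        rw [h6, div_le_iff₀ hNp]
        exact h5
      · rw [hmem, htr v hvB hvℓ g hg, cyc_frob ℓ ℚ_[ℓ] hvℓ hg]
        have hNl : (Ideal.absNorm v.asIdeal : ℚ_[ℓ]) ^ u ≠ 0 := by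
          refine zpow_ne_zero _ ?_
          exact_mod_cast hN0
        push_cast
        rw [div_mul_cancel₀ _ hNl]
    have h5 := (h4.trans (card_or _ _ N)).trans (add_le_add_right (card_or _ _ N) _)
    linarith
  obtain ⟨κ, g, U, hUn, hUo, hUH, hU⟩ := key Z hcl hconj (by linarith) hbad H hH
    (n ^ 2 + m ^ 2 + 1)
  -- all elements of the coset
  let M := Matrix (Fin n) (Fin n) ℚ_[ℓ] × Matrix (Fin m) (Fin m) ℚ_[ℓ] × ℚ_[ℓ]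
  let R : U → M := fun y => (mt ρ (g * y)⁻¹, mt η (g * y)⁻¹, cyc K ℓ ℚ_[ℓ] (g * y) ^ u)
  obtain ⟨f, hf1, hf2, -⟩ := Submodule.exists_fun_fin_finrank_span_eq ℚ_[ℓ] (Set.range R)
  choose h hh using hf1
  have hk : finrank ℚ_[ℓ] (Submodule.span ℚ_[ℓ] (Set.range R)) ≤ n ^ 2 + m ^ 2 + 1 := by
    refine (Submodule.finrank_le _).trans (le_of_eq ?_)
    rw [Module.finrank_prod, Module.finrank_prod, Module.finrank_matrix, Module.finrank_matrix,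
      Module.finrank_self, mul_one, mul_one, Fintype.card_fin, Fintype.card_fin]
    ring
  obtain ⟨x0, hx0, hx⟩ := hU _ hk (fun j => (h j : GK K)) (fun j => (h j).2)
  let L : M →ₗ[ℚ_[ℓ]] ℚ_[ℓ] :=
    ((Matrix.traceLinearMap (Fin n) ℚ_[ℓ] ℚ_[ℓ]).comp
        (LinearMap.mulLeft ℚ_[ℓ] (mt ρ x0⁻¹))).comp (LinearMap.fst ℚ_[ℓ] _ _) -
      ((Matrix.traceLinearMap (Fin m) ℚ_[ℓ] ℚ_[ℓ]).comp
        (LinearMap.mulLeft ℚ_[ℓ] (mt η x0⁻¹))).comp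
          ((LinearMap.fst ℚ_[ℓ] _ _).comp (LinearMap.snd ℚ_[ℓ] _ _)) -
      (((κ.1 : ℚ) : ℚ_[ℓ]) * cyc K ℓ ℚ_[ℓ] x0 ^ u) •
        ((LinearMap.snd ℚ_[ℓ] _ _).comp (LinearMap.snd ℚ_[ℓ] _ _))
  have hL : ∀ y : U, L (R y) = (mt ρ (g * y * x0)⁻¹).trace - (mt η (g * y * x0)⁻¹).trace -
      ((κ.1 : ℚ) : ℚ_[ℓ]) * cyc K ℓ ℚ_[ℓ] (g * y * x0) ^ u := by
    intro y
    change (mt ρ x0⁻¹ * mt ρ (g * y)⁻¹).trace - (mt η x0⁻¹ * mt η (g * y)⁻¹).trace -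
      (((κ.1 : ℚ) : ℚ_[ℓ]) * cyc K ℓ ℚ_[ℓ] x0 ^ u) * cyc K ℓ ℚ_[ℓ] (g * y) ^ u = _
    rw [mul_inv_rev (g * (y : GK K)) x0, mt_mul, mt_mul, map_mul (cyc K ℓ ℚ_[ℓ]) (g * (y : GK K)) x0,
      mul_zpow]
    ring
  have hL0 : ∀ z ∈ Submodule.span ℚ_[ℓ] (Set.range R), L z = 0 := by
    intro z hz
    rw [← hf2] at hz
    induction hz using Submodule.span_induction with
    | mem y hy =>
      obtain ⟨j, rfl⟩ := hy
      rw [← hh, hL, sub_eq_zero]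
      exact hx j
    | zero => rw [map_zero]
    | add a b _ _ ha hb => rw [map_add, ha, hb, add_zero]
    | smul c a _ ha => rw [map_smul, ha, smul_zero]
  have hall : ∀ y ∈ U, g * y ∈ Z κ := by
    intro y hy
    have h1 := hL0 _ (Submodule.subset_span ⟨⟨y * x0⁻¹, U.mul_mem hy (U.inv_mem hx0)⟩, rfl⟩)
    rw [hL, sub_eq_zero] at h1
    have h2 : g * (y * x0⁻¹) * x0 = g * y := by group
    rw [← h2]
    exact h1
  refine ⟨g⁻¹, ((κ.1 : ℚ) : ℚ_[ℓ]) * cyc K ℓ ℚ_[ℓ] g ^ u, U, hUn, hUo, hUH, fun x hx => ?_⟩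
  have h1 := hall x⁻¹ (U.inv_mem hx)
  rw [hmem] at h1
  have h2 : (g * x⁻¹)⁻¹ = x * g⁻¹ := by group
  rw [h2, mt_mul, mt_mul, map_mul, mul_zpow, c_inv, _root_.inv_zpow] at h1
  rw [Matrix.trace_mul_comm, Matrix.trace_mul_comm (mt η g⁻¹), h1, _root_.zpow_neg]
  ring

end Pool.Agent.J6H90.SL
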